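import Pool.Agent.L0h19.XF.DenX0

/-!
# Project XF: the joint law in a class
-/

set_option autoImplicit false
set_option linter.unusedVariables false
set_option maxHeartbeats 4000000

open scoped Classical
open Finset Filter
open scoped Topology

namespace Pool.Agent.L0h86.XF.Den

open Pool.Agent.Y703.CQ (c2)
open Pool.Agent.L0h74.EV (SE Cl)
open Pool.Agent.L0h74.AP (Cp)
open Pool.Agent.L0h74.KD.Den (c2_mem)

lemma split (A : Finset (Finset ℕ)) (P Q : Finset ℕ → Prop) [DecidablePred P]
    [DecidablePred fun S => P S ∧ Q S] [DecidablePred fun S => P S ∧ ¬ Q S] :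
    ((A.filter P).card : ℝ) = ((A.filter fun S => P S ∧ Q S).card : ℝ) +
      ((A.filter fun S => P S ∧ ¬ Q S).card : ℝ) := by
  have h := card_filter_add_card_filter_not (s := A.filter P) Q
  rw [filter_filter, filter_filter] at h
  rw [← h]
  push_cast
  congr!

lemma split' (A : Finset (Finset ℕ)) (Q : Finset ℕ → Prop) [DecidablePred Q]
    [DecidablePred fun S => ¬ Q S] :
    (A.card : ℝ) = ((A.filter Q).card : ℝ) + ((A.filter fun S => ¬ Q S).card : ℝ) := by
  have h := card_filter_add_card_filter_not (s := A) Q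
  rw [← h]
  push_cast
  congr!

/-- **Each quadrant has a quarter of the class.** -/
theorem quarter (hQL : S_QL) {u a : ℕ} (hc : Cp u a) (hu : 84 ∣ u) (V B : ℕ) (ε : ℝ)
    (hε : 0 < ε) : ∃ X₀ : ℕ, ∀ X : ℕ, X₀ ≤ X → ∀ F : Finset Bool,
    |((RR F u a V B X).card : ℝ) - 1 / 4 * ((SE u a X).card : ℝ)| ≤ ε * X := by
  obtain ⟨X₁, h1⟩ := hQL u a hc hu (V : ℤ) (V : ℤ) (ε / 4) (by positivity)
  obtain ⟨X₂, h2⟩ := hQL u a hc hu (V : ℤ) (-(B : ℤ)) (ε / 4) (by positivity)
  obtain ⟨X₃, h3⟩ := hQL u a hc hu (-(B : ℤ)) (V : ℤ) (ε / 4) (by positivity)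
  obtain ⟨X₄, h4⟩ := hQL u a hc hu (-(B : ℤ)) (-(B : ℤ)) (ε / 4) (by positivity)
  refine ⟨max (max X₁ X₂) (max X₃ X₄), fun X hX F => ?_⟩
  have hX1 : X₁ ≤ X := ((le_max_left _ _).trans (le_max_left _ _)).trans hX
  have hX2 : X₂ ≤ X := ((le_max_right _ _).trans (le_max_left _ _)).trans hX
  have hX3 : X₃ ≤ X := ((le_max_left _ _).trans (le_max_right _ _)).trans hX
  have hX4 : X₄ ≤ X := ((le_max_right _ _).trans (le_max_right _ _)).trans hX
  obtain ⟨a1, a2, a3⟩ := h1 X hX1
  obtain ⟨b1, b2, b3⟩ := h2 X hX2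
  obtain ⟨c1, c2, c3⟩ := h3 X hX3
  obtain ⟨d1, d2, d3⟩ := h4 X hX4
  have hX0 : (0 : ℝ) ≤ ε * X := by positivity
  set A := SE u a X with hA
  by_cases hf : false ∈ F <;> by_cases ht : true ∈ F
  · have e : RR F u a V B X = A.filter fun S => (V : ℤ) ≤ kd false S ∧ (V : ℤ) ≤ kd true S := by
      unfold RR
      refine filter_congr fun S _ => ⟨fun h => ⟨h.1 _ hf, h.1 _ ht⟩, fun h => ⟨fun f _ => ?_, fun f h' => ?_⟩⟩
      · cases f
        · exact h.1
        · exact h.2
      · cases f
        · exact absurd hf h'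
        · exact absurd ht h'
    rw [e]
    refine a1.trans ?_
    linarith
  · have e : RR F u a V B X = A.filter fun S => (V : ℤ) ≤ kd false S ∧ ¬ (-(B : ℤ) ≤ kd true S) := by
      unfold RR
      refine filter_congr fun S _ => ⟨fun h => ⟨h.1 _ hf, not_le.2 (h.2 _ ht)⟩,
        fun h => ⟨fun f h' => ?_, fun f h' => ?_⟩⟩
      · cases f
        · exact h.1
        · exact absurd h' ht
      · cases f
        · exact absurd hf h'
        · exact not_le.1 h.2
    rw [e]
    have s1 := split A (fun S => (V : ℤ) ≤ kd false S) (fun S => -(B : ℤ) ≤ kd true S)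
    rw [abs_le] at b1 b2 ⊢
    constructor <;> linarith
  · have e : RR F u a V B X = A.filter fun S => (V : ℤ) ≤ kd true S ∧ ¬ (-(B : ℤ) ≤ kd false S) := by
      unfold RR
      refine filter_congr fun S _ => ⟨fun h => ⟨h.1 _ ht, not_le.2 (h.2 _ hf)⟩,
        fun h => ⟨fun f h' => ?_, fun f h' => ?_⟩⟩
      · cases f
        · exact absurd h' hf
        · exact h.1
      · cases f
        · exact not_le.1 h.2
        · exact absurd ht h'
    rw [e]
    have s1 := split A (fun S => (V : ℤ) ≤ kd true S) (fun S => -(B : ℤ) ≤ kd false S)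
    have s2 : (A.filter fun S => (V : ℤ) ≤ kd true S ∧ -(B : ℤ) ≤ kd false S) =
        A.filter fun S => -(B : ℤ) ≤ kd false S ∧ (V : ℤ) ≤ kd true S := filter_congr fun S _ => and_comm
    rw [s2] at s1
    rw [abs_le] at c1 c3 ⊢
    constructor <;> linarith
  · have e : RR F u a V B X =
        A.filter fun S => ¬ (-(B : ℤ) ≤ kd false S) ∧ ¬ (-(B : ℤ) ≤ kd true S) := by
      unfold RR
      refine filter_congr fun S _ => ⟨fun h => ⟨not_le.2 (h.2 _ hf), not_le.2 (h.2 _ ht)⟩,
        fun h => ⟨fun f h' => ?_, fun f h' => ?_⟩⟩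
      · cases f
        · exact absurd h' hf
        · exact absurd h' ht
      · cases f
        · exact not_le.1 h.1
        · exact not_le.1 h.2
    rw [e]
    have s0 := split' A (fun S => -(B : ℤ) ≤ kd false S)
    have s1 := split A (fun S => ¬ (-(B : ℤ) ≤ kd false S)) (fun S => -(B : ℤ) ≤ kd true S)
    have s3 := split A (fun S => -(B : ℤ) ≤ kd true S) (fun S => -(B : ℤ) ≤ kd false S)
    have s2 : (A.filter fun S => -(B : ℤ) ≤ kd true S ∧ -(B : ℤ) ≤ kd false S) =
        A.filter fun S => -(B : ℤ) ≤ kd false S ∧ -(B : ℤ) ≤ kd true S := filter_congr fun S _ => and_comm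
    have s4 : (A.filter fun S => -(B : ℤ) ≤ kd true S ∧ ¬ (-(B : ℤ) ≤ kd false S)) =
        A.filter fun S => ¬ (-(B : ℤ) ≤ kd false S) ∧ -(B : ℤ) ≤ kd true S := filter_congr fun S _ => and_comm
    rw [s2, s4] at s3
    rw [abs_le] at d1 d2 d3 ⊢
    constructor <;> linarith

/-- the constant of a quadrant -/
noncomputable def cF {t : ℕ} (f β : Fin t → Bool) (F : Finset Bool) : ℝ :=
  (∏ g ∈ F, ∏ l ∈ univ.filter (fun l => f l = g), if β l = true then c2 else 1 - c2) *
    ∏ g ∈ univ \ F, (if ∀ l, f l = g → β l = false then 1 else 0)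

lemma limX_eq {t : ℕ} (f β : Fin t → Bool) : limX f β = ∑ F : Finset Bool, 1 / 4 * cF f β F := by
  unfold limX
  rw [Finset.prod_add, Finset.powerset_univ]
  refine sum_congr rfl fun F _ => ?_
  unfold cF
  rw [prod_mul_distrib, prod_mul_distrib, prod_const, prod_const]
  have h : F.card + (univ \ F).card = 2 := by
    rw [add_comm, card_sdiff_add_card_eq_card (subset_univ F), card_univ, Fintype.card_bool]
  have h2 : (1 / 2 : ℝ) ^ F.card * (1 / 2 : ℝ) ^ (univ \ F).card = 1 / 4 := by
    rw [← pow_add, h]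
    norm_num
  rw [← h2]
  ring

lemma cF_mem {t : ℕ} (f β : Fin t → Bool) (F : Finset Bool) : 0 ≤ cF f β F ∧ cF f β F ≤ 1 := by
  obtain ⟨m0, m1⟩ := c2_mem
  have h1 : ∀ g : Bool, 0 ≤ ∏ l ∈ univ.filter (fun l => f l = g), (if β l = true then c2 else 1 - c2) ∧
      ∏ l ∈ univ.filter (fun l => f l = g), (if β l = true then c2 else 1 - c2) ≤ 1 := by
    intro g
    constructor
    · exact prod_nonneg fun l _ => by split_ifs <;> linarith
    · exact prod_le_one (fun l _ => by split_ifs <;> linarith)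
        (fun l _ => by split_ifs <;> linarith)
  have h2 : ∀ g : Bool, (0 : ℝ) ≤ (if ∀ l, f l = g → β l = false then 1 else 0) ∧
      (if ∀ l, f l = g → β l = false then (1 : ℝ) else 0) ≤ 1 := by
    intro g
    split_ifs <;> norm_num
  have h3 : 0 ≤ ∏ g ∈ univ \ F, (if ∀ l, f l = g → β l = false then (1 : ℝ) else 0) :=
    prod_nonneg fun g _ => (h2 g).1
  have h4 : ∏ g ∈ univ \ F, (if ∀ l, f l = g → β l = false then (1 : ℝ) else 0) ≤ 1 :=
    prod_le_one (fun g _ => (h2 g).1) fun g _ => (h2 g).2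
  have h5 : 0 ≤ ∏ g ∈ F, ∏ l ∈ univ.filter (fun l => f l = g), (if β l = true then c2 else 1 - c2) :=
    prod_nonneg fun g _ => (h1 g).1
  have h6 : ∏ g ∈ F, ∏ l ∈ univ.filter (fun l => f l = g), (if β l = true then c2 else 1 - c2) ≤ 1 :=
    prod_le_one (fun g _ => (h1 g).1) fun g _ => (h1 g).2
  unfold cF
  exact ⟨mul_nonneg h5 h3, mul_le_one₀ h6 h3 h4⟩

/-- **The law of all the systems in a quadrant.** -/
theorem quad (hKY : S_KYX) (hFJ : S_FEWX) (hBAD : S_BADX) (hNEG : S_NEGX) {t n : ℕ}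
    {s : Fin t → Sy} {u a : ℕ} {cl : Fin n → ℕ} {fr : Fin n → Bool} {x : Fin t → Fin n → ZMod 2}
    {cs : ℕ} (hy : Hy s u a cl fr x cs) (B : ℕ) (hB : ∀ l, (kW (s l)).natAbs ≤ B)
    (F : Finset Bool) (ε : ℝ) (hε : 0 < ε) : ∃ V₁ : ℕ, ∀ V : ℕ, V₁ ≤ V → ∀ β : Fin t → Bool,
    ∀ᶠ X : ℕ in atTop,
    |(((RR F u a V B X).filter (PatS s β)).card : ℝ) -
      cF (fun l => (s l).d.f) β F * ((RR F u a V B X).card : ℝ)| ≤ ε * X := by
  set ι := {l : Fin t // (s l).d.f ∈ F} with hι
  set e : ι ≃ Fin (Fintype.card ι) := Fintype.equivFin ι with he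
  set s' : Fin (Fintype.card ι) → Sy := fun i => s (e.symm i).1 with hs'
  set x' : Fin (Fintype.card ι) → Fin n → ZMod 2 := fun i => x (e.symm i).1 with hx'
  have hy' : Hy s' u a cl fr x' cs :=
    { cp := hy.cp
      dv := hy.dv
      t4 := fun l => hy.t4 _
      recA := fun l => hy.recA _
      W := fun l => hy.W _
      Wu := fun l => hy.Wu _
      par := fun l => hy.par _
      cls := fun r p h1 h2 => ⟨(hy.cls r p h1 h2).1, fun l l' => (hy.cls r p h1 h2).2 _ _⟩
      clc := hy.clc
      sep := fun l l' hl hf => hy.sep _ _ (fun h => hl (e.symm.injective (Subtype.ext h))) hf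
      cst := hy.cst
      csc := hy.csc }
  have hlaw : ∃ V₁ : ℕ, ∀ V : ℕ, V₁ ≤ V → ∀ β : Fin (Fintype.card ι) → Bool,
      ∀ᶠ X : ℕ in atTop,
      |(((RR F u a V B X).filter (PatS s' β)).card : ℝ) -
        amc β * ((RR F u a V B X).card : ℝ)| ≤ ε * X := by
    by_cases hF : F.Nonempty
    · obtain ⟨V₁, h⟩ := up_law hKY hFJ hBAD hy' F hF (fun l => (e.symm l).2) ε hε
      exact ⟨V₁, fun V hV β => h V hV B β⟩
    · have hF0 := not_nonempty_iff_eq_empty.1 hF
      refine ⟨0, fun V _ β => Eventually.of_forall fun X => ?_⟩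
      have hem : ∀ l : Fin (Fintype.card ι), False := by
        intro l
        exact hF ⟨_, (e.symm l).2⟩
      have h1 : (RR F u a V B X).filter (PatS s' β) = RR F u a V B X := by
        rw [filter_true_of_mem]
        exact fun S _ l => (hem l).elim
      have h2 : amc β = 1 := by
        unfold amc
        exact prod_eq_one fun l _ => (hem l).elim
      rw [h1, h2, one_mul, sub_self, abs_zero]
      positivity
  obtain ⟨V₁, hV₁⟩ := hlaw
  refine ⟨V₁, fun V hV β => ?_⟩
  filter_upwards [hV₁ V hV (fun i => β (e.symm i).1)] with X hX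
  have hbad : ∀ S ∈ RR F u a V B X, ∀ l, (s l).d.f ∉ F → ¬ GdS (s l) S := by
    intro S hS l hl hG
    unfold RR at hS
    rw [mem_filter] at hS
    have h1 := hNEG (s l) S (hy.t4 l) (fun v hv hw => SE_nd hy.cp.cop hS.1 hv (hy.Wu l v hw)) hG
    have h2 := hS.2.2 _ hl
    have h3 := hB l
    omega
  by_cases hz : ∀ l, (s l).d.f ∉ F → β l = false
  · have e1 : (RR F u a V B X).filter (PatS s β) =
        (RR F u a V B X).filter (PatS s' fun i => β (e.symm i).1) := by
      refine filter_congr fun S hS => ⟨fun h i => h _, fun h l => ?_⟩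
      by_cases hl : (s l).d.f ∈ F
      · have h1 := h (e ⟨l, hl⟩)
        rw [hs'] at h1
        simp only [Equiv.symm_apply_apply] at h1
        exact h1
      · rw [hz l hl]
        exact ⟨fun h1 => absurd h1 (hbad S hS l hl), fun h1 => absurd h1 (by decide)⟩
    have e2 : cF (fun l => (s l).d.f) β F = amc fun i => β (e.symm i).1 := by
      unfold cF amc
      have h1 : ∏ g ∈ univ \ F, (if ∀ l, (s l).d.f = g → β l = false then (1 : ℝ) else 0) = 1 := by
        refine prod_eq_one fun g hg => ?_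
        rw [if_pos]
        intro l hl
        apply hz
        rw [hl]
        exact (Finset.mem_sdiff.1 hg).2
      rw [h1, mul_one]
      have h2 : ∏ g ∈ F, ∏ l ∈ univ.filter (fun l => (s l).d.f = g), (if β l = true then c2 else 1 - c2) =
          ∏ l ∈ univ.filter (fun l => (s l).d.f ∈ F), (if β l = true then c2 else 1 - c2) := by
        rw [← prod_fiberwise_of_maps_to (s := univ.filter (fun l => (s l).d.f ∈ F)) (t := F)
          (g := fun l => (s l).d.f) (fun l hl => (mem_filter.1 hl).2)]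
        refine prod_congr rfl fun g hg => ?_
        rw [filter_filter]
        refine prod_congr (filter_congr fun l _ => ⟨fun h => ⟨h ▸ hg, h⟩, fun h => h.2⟩)
          fun l _ => rfl
      rw [h2, ← Equiv.prod_comp e (fun i => if β (e.symm i).1 = true then c2 else 1 - c2)]
      simp only [Equiv.symm_apply_apply]
      rw [← Finset.prod_subtype (p := fun l => (s l).d.f ∈ F)
        (univ.filter (fun l => (s l).d.f ∈ F)) (fun l => by simp)
        (fun l => if β l = true then c2 else 1 - c2)]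
    rw [e1, e2]
    exact hX
  · push Not at hz
    obtain ⟨l, hl, hl2⟩ := hz
    have hl3 : β l = true := by
      cases hb : β l
      · exact absurd hb hl2
      · rfl
    have e1 : (RR F u a V B X).filter (PatS s β) = ∅ := by
      rw [filter_eq_empty_iff]
      intro S hS h
      exact hbad S hS l hl ((h l).2 hl3)
    have e2 : cF (fun l => (s l).d.f) β F = 0 := by
      unfold cF
      apply mul_eq_zero_of_right
      refine prod_eq_zero (Finset.mem_sdiff.2 ⟨mem_univ _, hl⟩) ?_
      rw [if_neg]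
      exact fun h => hl2 (h l rfl)
    rw [e1, e2, card_empty, zero_mul, Nat.cast_zero, sub_zero, abs_zero]
    positivity

/-- **The joint law in a class.** -/
theorem t_DENX (hKY : S_KYX) (hFJ : S_FEWX) (hBAD : S_BADX) (hNEG : S_NEGX) (hQL : S_QL) :
    S_DJX := by
  intro t n s u a cl fr x cs hy β ε hε
  set B : ℕ := ∑ l, (kW (s l)).natAbs with hB
  have hB' : ∀ l, (kW (s l)).natAbs ≤ B := fun l =>
    single_le_sum (f := fun l => (kW (s l)).natAbs) (fun _ _ => Nat.zero_le _) (mem_univ l)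
  have hq := fun F => quad hKY hFJ hBAD hNEG hy B hB' F (ε / 16) (by positivity)
  choose V₁ hV₁ using hq
  set V : ℕ := ∑ F : Finset Bool, V₁ F with hV
  have hV' : ∀ F, V₁ F ≤ V := fun F =>
    single_le_sum (f := V₁) (fun _ _ => Nat.zero_le _) (mem_univ F)
  have hev : ∀ᶠ X : ℕ in atTop, ∀ F : Finset Bool,
      |(((RR F u a V B X).filter (PatS s β)).card : ℝ) -
      cF (fun l => (s l).d.f) β F * ((RR F u a V B X).card : ℝ)| ≤ ε / 16 * X := by
    rw [eventually_all]
    exact fun F => hV₁ F V (hV' F) β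
  obtain ⟨X₀, hX₀⟩ := quarter hQL hy.cp hy.dv V B (ε / 16) (by positivity)
  filter_upwards [hev, eventually_ge_atTop X₀] with X h1 hX
  have h2 := hX₀ X hX
  have hX0 : (0 : ℝ) ≤ ε * X := by positivity
  set U := (univ : Finset (Finset Bool)).biUnion fun F => RR F u a V B X with hU
  have hUS : U ⊆ SE u a X := by
    intro S hS
    rw [hU, mem_biUnion] at hS
    obtain ⟨F, -, hF⟩ := hS
    exact (mem_filter.1 hF).1
  have hdis : ∀ F F' : Finset Bool, F ≠ F' → Disjoint (RR F u a V B X) (RR F' u a V B X) := by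
    intro F F' hne
    rw [Finset.disjoint_left]
    intro S hS hS'
    apply hne
    unfold RR at hS hS'
    rw [mem_filter] at hS hS'
    ext f
    constructor
    · intro hf
      by_contra h
      have h3 := hS.2.1 f hf
      have h4 := hS'.2.2 f h
      omega
    · intro hf
      by_contra h
      have h3 := hS'.2.1 f hf
      have h4 := hS.2.2 f h
      omega
  have cU : (U.card : ℝ) = ∑ F : Finset Bool, ((RR F u a V B X).card : ℝ) := by
    rw [hU, card_biUnion fun F _ F' _ h => hdis F F' h]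
    push_cast
    rfl
  have cP : ((U.filter (PatS s β)).card : ℝ) =
      ∑ F : Finset Bool, (((RR F u a V B X).filter (PatS s β)).card : ℝ) := by
    rw [hU, filter_biUnion, card_biUnion fun F _ F' _ h => disjoint_filter_filter (hdis F F' h)]
    push_cast
    rfl
  have hA : (((SE u a X).filter (PatS s β)).card : ℝ) = ((U.filter (PatS s β)).card : ℝ) +
      (((SE u a X \ U).filter (PatS s β)).card : ℝ) := by
    rw [← Nat.cast_add, ← card_union_of_disjoint, ← filter_union, union_sdiff_of_subset hUS]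
    exact disjoint_filter_filter disjoint_sdiff
  have hcU : ((SE u a X \ U).card : ℝ) = (SE u a X).card - U.card := by
    rw [card_sdiff_of_subset hUS, Nat.cast_sub (card_le_card hUS)]
  have hlo : (0 : ℝ) ≤ (((SE u a X \ U).filter (PatS s β)).card : ℝ) := Nat.cast_nonneg _
  have hle : (((SE u a X \ U).filter (PatS s β)).card : ℝ) ≤ ((SE u a X \ U).card : ℝ) := by
    exact_mod_cast card_le_card (filter_subset _ _)
  have c4 : (Fintype.card (Finset Bool) : ℝ) = 4 := by
    rw [Fintype.card_finset, Fintype.card_bool]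
    norm_num
  have k1 : |∑ F : Finset Bool, ((((RR F u a V B X).filter (PatS s β)).card : ℝ) -
      cF (fun l => (s l).d.f) β F * ((RR F u a V B X).card : ℝ))| ≤ ε / 4 * X := by
    refine (abs_sum_le_sum_abs _ _).trans ((sum_le_sum fun F _ => h1 F).trans ?_)
    rw [sum_const, card_univ, nsmul_eq_mul, c4]
    linarith
  have k2 : |∑ F : Finset Bool, cF (fun l => (s l).d.f) β F * (((RR F u a V B X).card : ℝ) -
      1 / 4 * ((SE u a X).card : ℝ))| ≤ ε / 4 * X := by
    refine (abs_sum_le_sum_abs _ _).trans ((sum_le_sum (g := fun _ => ε / 16 * X)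
      fun F _ => ?_).trans ?_)
    · rw [abs_mul, abs_of_nonneg (cF_mem _ β F).1]
      calc cF (fun l => (s l).d.f) β F * |((RR F u a V B X).card : ℝ) -
            1 / 4 * ((SE u a X).card : ℝ)| ≤ 1 * |((RR F u a V B X).card : ℝ) -
            1 / 4 * ((SE u a X).card : ℝ)| :=
            mul_le_mul_of_nonneg_right (cF_mem _ β F).2 (abs_nonneg _)
        _ ≤ ε / 16 * X := by rw [one_mul]; exact h2 F
    · rw [sum_const, card_univ, nsmul_eq_mul, c4]
      linarith
  have k3 : ((SE u a X \ U).card : ℝ) ≤ ε / 4 * X := by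
    rw [hcU, cU]
    have h3 : ∑ F : Finset Bool, (1 / 4 * ((SE u a X).card : ℝ) - ε / 16 * X) ≤
        ∑ F : Finset Bool, ((RR F u a V B X).card : ℝ) := by
      refine sum_le_sum fun F _ => ?_
      have := (abs_le.1 (h2 F)).1
      linarith
    rw [sum_const, card_univ, nsmul_eq_mul, c4] at h3
    linarith
  have hfin : (((SE u a X).filter (PatS s β)).card : ℝ) -
      limX (fun l => (s l).d.f) β * ((SE u a X).card : ℝ) =
      ∑ F : Finset Bool, ((((RR F u a V B X).filter (PatS s β)).card : ℝ) -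
      cF (fun l => (s l).d.f) β F * ((RR F u a V B X).card : ℝ)) +
      ∑ F : Finset Bool, cF (fun l => (s l).d.f) β F * (((RR F u a V B X).card : ℝ) -
      1 / 4 * ((SE u a X).card : ℝ)) + (((SE u a X \ U).filter (PatS s β)).card : ℝ) := by
    rw [hA, cP, limX_eq, sum_mul, ← sum_add_distrib, add_sub_right_comm, ← sum_sub_distrib]
    congr 1
    refine sum_congr rfl fun F _ => ?_
    ring
  rw [hfin]
  refine (abs_add_le _ _).trans ((add_le_add (abs_add_le _ _) le_rfl).trans ?_)
  rw [abs_of_nonneg hlo]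
  linarith

end Pool.Agent.L0h86.XF.Den
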