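import Pool.Agent.L0h86.XF.Stm
import Pool.Agent.L0h2.P.DENJ

/-!
# Project XF: the law in a quadrant (preparation of the assembly)

After `Pool/Agent/L0h2/P/DENJ.lean` of helper2.
-/

set_option autoImplicit false
set_option linter.unusedVariables false
set_option maxHeartbeats 4000000

open scoped Classical
open Finset Filter
open scoped Topology

namespace Pool.Agent.L0h86.XF.Den

open Pool.Agent.Y703
open Pool.Agent.Y703.CX (sm la jj XX eL zz kk eL_tendsto logX_eq HH ev_eL one_le_exp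
  HH_ge HH_le HH_pos kk_ge kk_le X_pos one_add_log lin_le kap zz_ge zz_pos kap_nonneg kap_pow kap_le)
open Pool.Agent.Y703.CQ (nr sg c2)
open Pool.Agent.N973.ND (Pr m7 uu SA)
open Pool.Agent.L0h74.T3 (m3)
open Pool.Agent.L0h74.EV (SE Cl n2)
open Pool.Agent.L0h74.EV.KEY (ph CC)
open Pool.Agent.L0h74.AP (Cp)
open Pool.Agent.L0h2.P (RK card_img card_sm_la mem_SA sml_shift sml_sum sml_mainJ)
open Pool.Agent.N218.GB.Asy (Sml sml_of sml_add sml_eps cmp log_three)
open Pool.Agent.L0h74.KD.Den (c2_mem sml_many sml_coll SA_card)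
open Pool.Agent.L0h74.EV.Den (SE_sub)

/-! ### the keys -/

section keys
variable {u z H : ℕ} {S : Finset ℕ}

lemma mF_mod (hu : 84 ∣ u) (f : Bool) (p : ℕ) : mF f (p % (7 * u)) = mF f p := by
  have h7 : 7 ∣ 7 * u := Dvd.intro _ rfl
  have h3 : 3 ∣ 7 * u := ((by norm_num : 3 ∣ 84).trans hu).trans (Dvd.intro_left _ rfl)
  unfold mF m3 m7
  rw [Nat.mod_mod_of_dvd _ h7, Nat.mod_mod_of_dvd _ h3]

lemma ty_mod (hu : 84 ∣ u) (f : Bool) (p : ℕ) : ty f (p % (7 * u)) = ty f p := by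
  have h4 : 4 ∣ 7 * u := ((by norm_num : 4 ∣ 84).trans hu).trans (Dvd.intro_left _ rfl)
  unfold ty
  rw [mF_mod hu, Nat.mod_mod_of_dvd _ h4]

lemma kJ_eqD (hu : 84 ∣ u) (f : Bool) (h : Set.InjOn (jj H) (la z S : Set ℕ)) :
    kJ f (sm z S) ((la z S).image (ph u H)) = kd f S := by
  unfold kJ kd
  rw [card_img h, card_img h, card_sm_la (z := z) (S := S) fun p => ty f p = 3,
    card_sm_la (z := z) (S := S) fun p => ty f p = 1]
  have e : ∀ c, ((la z S).filter fun p => ty f (ph u H p).2 = c).card =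
      ((la z S).filter fun p => ty f p = c).card := fun c => by
    congr 1
    refine filter_congr fun p _ => ?_
    show ty f (p % (7 * u)) = c ↔ _
    rw [ty_mod hu]
  rw [e, e]
  push_cast
  ring

lemma five_le (hu : 84 ∣ u) (h : Set.InjOn (jj H) (la z S : Set ℕ)) :
    ((la z S).filter fun p => p % 84 = 5).card ≤
    (((la z S).image (ph u H)).filter fun e => ty false e.2 = 0 ∧ ty true e.2 = 0).card := by
  rw [card_img h]
  refine card_le_card fun p hp => ?_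
  rw [mem_filter] at hp ⊢
  refine ⟨hp.1, ?_⟩
  show ty false (p % (7 * u)) = 0 ∧ ty true (p % (7 * u)) = 0
  rw [ty_mod hu, ty_mod hu]
  have h5 := hp.2
  have a7 : p % 7 = 5 := by omega
  have a3 : p % 3 = 2 := by omega
  have a4 : p % 4 = 1 := by omega
  simp [ty, mF, m7, m3, a7, a3, a4]

end keys

/-! ### the sets -/

/-- the odd unramified primes of the modulus -/
noncomputable def R0 (f : Bool) (u : ℕ) : Finset ℕ := u.primeFactors.filter (PrF f)

lemma R0_le {f : Bool} {u z p : ℕ} (hz : u ≤ z) (hp : p ∈ R0 f u) : p ≤ z :=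
  (Nat.le_of_mem_primeFactors (mem_filter.1 hp).1).trans hz

lemma R0_prod {f : Bool} {u : ℕ} (hu : 0 < u) : ∏ p ∈ R0 f u, p ≤ u :=
  Nat.le_of_dvd hu ((prod_dvd_prod_of_subset _ _ _ (filter_subset _ _)).trans
    (Nat.prod_primeFactors_dvd u))

lemma R0_eq (f : Bool) (u : ℕ) :
    R0 f u = (u.primeFactors.erase 2).erase (if f = true then 3 else 7) := by
  ext p
  unfold R0
  rw [mem_filter, mem_erase, mem_erase]
  unfold PrF
  constructor
  · rintro ⟨h1, h2, h3, h4⟩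
    exact ⟨h4, h3, h1⟩
  · rintro ⟨h1, h2, h3⟩
    exact ⟨h3, Nat.prime_of_mem_primeFactors h3, h2, h1⟩

lemma card_R0 {u : ℕ} (hu : 84 ∣ u) (h0 : 0 < u) (f : Bool) :
    (R0 f u).card = u.primeFactors.card - 1 - 1 := by
  have h2 : 2 ∈ u.primeFactors := Nat.mem_primeFactors.2
    ⟨Nat.prime_two, (by norm_num : 2 ∣ 84).trans hu, h0.ne'⟩
  have h3 : 3 ∈ u.primeFactors := Nat.mem_primeFactors.2
    ⟨Nat.prime_three, (by norm_num : 3 ∣ 84).trans hu, h0.ne'⟩
  have h7 : 7 ∈ u.primeFactors := Nat.mem_primeFactors.2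
    ⟨by norm_num, (by norm_num : 7 ∣ 84).trans hu, h0.ne'⟩
  rw [R0_eq, card_erase_of_mem, card_erase_of_mem h2]
  rw [mem_erase]
  cases f
  · exact ⟨by decide, h7⟩
  · exact ⟨by decide, h3⟩

lemma SE_nd {u a X : ℕ} (hc : Nat.Coprime a u) {S : Finset ℕ} (hS : S ∈ SE u a X) {p : ℕ}
    (hp : p ∈ S) : ¬ p ∣ u := by
  intro h3
  unfold SE at hS
  rw [mem_filter] at hS
  obtain ⟨-, ⟨h1, h2⟩, -⟩ := hS
  have h4 : p ∣ ∏ q ∈ S, q := dvd_prod_of_mem _ hp
  have h5 : p ∣ a := by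
    rw [← h2]
    exact (Nat.dvd_mod_iff h3).2 h4
  have h6 : p ∣ 1 := by
    rw [← hc]
    exact Nat.dvd_gcd h5 h3
  exact (h1 p hp).1.one_lt.ne' (Nat.dvd_one.1 h6)

lemma SE_disj {f : Bool} {u a X : ℕ} (hc : Nat.Coprime a u) {S : Finset ℕ} (hS : S ∈ SE u a X) :
    Disjoint S (R0 f u) := by
  rw [Finset.disjoint_left]
  intro p hp hr
  exact SE_nd hc hS hp (Nat.dvd_of_mem_primeFactors (mem_filter.1 hr).1)

lemma SE_PrF {f : Bool} {u a X : ℕ} (hu : 84 ∣ u) (hc : Nat.Coprime a u) {S : Finset ℕ}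
    (hS : S ∈ SE u a X) {p : ℕ} (hp : p ∈ S) : PrF f p := by
  have h1 := SE_nd hc hS hp
  have h2 : p.Prime := ((mem_SA.1 (SE_sub X hS)).1 p hp).1
  refine ⟨h2, ?_, ?_⟩
  · rintro rfl
    exact h1 ((by norm_num : 2 ∣ 84).trans hu)
  · rintro rfl
    apply h1
    split_ifs
    · exact (by norm_num : 3 ∣ 84).trans hu
    · exact (by norm_num : 7 ∣ 84).trans hu

lemma sm_un {f : Bool} {u z : ℕ} (hz : u ≤ z) (S : Finset ℕ) :
    sm z (S ∪ R0 f u) = sm z S ∪ R0 f u := by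
  ext p
  unfold sm
  simp only [mem_filter, mem_union]
  constructor
  · rintro ⟨h | h, h2⟩
    · exact Or.inl ⟨h, h2⟩
    · exact Or.inr h
  · rintro (h | h)
    · exact ⟨Or.inl h.1, h.2⟩
    · exact ⟨Or.inr h, R0_le hz h⟩

lemma la_un {f : Bool} {u z : ℕ} (hz : u ≤ z) (S : Finset ℕ) : la z (S ∪ R0 f u) = la z S := by
  ext p
  unfold la
  simp only [mem_filter, mem_union]
  constructor
  · rintro ⟨h | h, h2⟩
    · exact ⟨h, h2⟩
    · exact absurd (R0_le hz h) h2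
  · rintro h
    exact ⟨Or.inl h.1, h.2⟩

/-- the nondegeneracy with the primes of the modulus -/
theorem ndj_of {t : ℕ} {s : Fin t → Sy} {S₀ S₁ : Finset ℕ} {R : Bool → Finset ℕ}
    (hR : ∀ l p, some p ∈ (s l).W → p ∈ R (s l).d.f)
    (h : ∀ f, NdE f (S₀ ∪ R f) S₁) : NdJ s S₀ S₁ := by
  intro l w hw
  set w' : Option ℕ → ZMod 2 := fun v => if v ∈ SW (s l) S₀ then w v else 0 with hw'
  have hmem : ∀ v, v ∈ SW (s l) S₀ → v = none ∨ ∃ p ∈ S₀ ∪ R (s l).d.f, v = some p := by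
    intro v hv
    unfold SW at hv
    rw [mem_union, mem_image] at hv
    rcases hv with ⟨a, ha, rfl⟩ | hv
    · exact Or.inr ⟨a, mem_union_left _ ha, rfl⟩
    · rcases v with _ | v
      · exact Or.inl rfl
      · exact Or.inr ⟨v, mem_union_right _ (hR l v hv), rfl⟩
  obtain ⟨p, hp, hp2, hp3⟩ := h (s l).d.f (fun q => w' (some q)) (w' none) (by
    obtain ⟨v, hv, hv2⟩ := hw
    have h1 : w' v ≠ 0 := by
      rw [hw']
      simp only
      rw [if_pos hv]
      exact hv2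
    rcases hmem v hv with rfl | ⟨q, hq, rfl⟩
    · exact Or.inr h1
    · exact Or.inl ⟨q, hq, h1⟩)
  refine ⟨p, hp, hp2, ?_⟩
  have e1 : ∑ v ∈ SW (s l) S₀, w v * nO (s l).d (some p) v =
      ∑ v ∈ insertNone (S₀ ∪ R (s l).d.f), w' v * nO (s l).d (some p) v := by
    have hsub : SW (s l) S₀ ⊆ insertNone (S₀ ∪ R (s l).d.f) := by
      intro v hv
      rcases hmem v hv with rfl | ⟨q, hq, rfl⟩
      · simp
      · rw [Finset.some_mem_insertNone]
        exact hq
    rw [← sum_subset hsub]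
    · refine sum_congr rfl fun v hv => ?_
      rw [hw']
      simp only
      rw [if_pos hv]
    · intro v _ hv
      rw [hw']
      simp only
      rw [if_neg hv, zero_mul]
  rw [e1, Finset.sum_insertNone, add_comm]
  exact hp3

/-- a quadrant -/
noncomputable def RR (F : Finset Bool) (u a V B X : ℕ) : Finset (Finset ℕ) :=
  (SE u a X).filter fun S => (∀ f ∈ F, (V : ℤ) ≤ kd f S) ∧ ∀ f, f ∉ F → kd f S < -(B : ℤ)

/-- the condition on the keys -/
def KK {n : ℕ} (F : Finset Bool) (cl : Fin n → ℕ) (cs V₁ V' M V B : ℕ) (S₀ : Finset ℕ)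
    (J : Finset (ℕ × ℕ)) : Prop :=
  KQ F cl cs V₁ V' M S₀ J ∧ (∀ f ∈ F, (V : ℤ) ≤ kJ f S₀ J) ∧ ∀ f, f ∉ F → kJ f S₀ J < -(B : ℤ)

/-- many primes -/
noncomputable def Dm (k Y : ℕ) : Finset (Finset ℕ) := (SA Y).filter fun S => k < S.card
/-- two primes in a block -/
noncomputable def Di (z H Y : ℕ) : Finset (Finset ℕ) :=
  (SA Y).filter fun S => ¬ Set.InjOn (jj H) (la z S : Set ℕ)
/-- the cut -/
noncomputable def Dc (z H k X : ℕ) : Finset (Finset ℕ) :=
  (SA X).filter fun S => S.card ≤ k ∧ X < (∏ p ∈ sm z S, p) * ∏ p ∈ la z S, XX H (jj H p)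
/-- few primes in a class -/
noncomputable def Df (f : Bool) (q c M V z Y : ℕ) : Finset (Finset ℕ) :=
  (SA Y).filter fun S => (((la z S).filter fun p => p % q = c).card : ℤ) <
    (M : ℤ) * kd f S + (M : ℤ) * ((sm z S).card : ℤ) + (V : ℤ)
/-- degenerate labels -/
noncomputable def Db (f : Bool) (k z Y : ℕ) : Finset (Finset ℕ) :=
  (SAF f Y).filter fun S => S.card ≤ k ∧ ¬ NdE f (sm z S) (la z S)
/-- the sets which lie in `A` with the primes of the modulus -/
noncomputable def sh (f : Bool) (u a X : ℕ) (A : Finset (Finset ℕ)) : Finset (Finset ℕ) :=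
  (SE u a X).filter fun S => S ∪ R0 f u ∈ A

lemma card_sh (f : Bool) {u a : ℕ} (hc : Nat.Coprime a u) (X : ℕ) (A : Finset (Finset ℕ)) :
    (sh f u a X A).card ≤ A.card := by
  refine card_le_card_of_injOn (fun S => S ∪ R0 f u) (fun S hS => (mem_filter.1 hS).2) ?_
  intro S hS T hT hST
  unfold sh at hS hT
  rw [coe_filter] at hS hT
  have h1 := SE_disj (f := f) hc hS.1
  have h2 := SE_disj (f := f) hc hT.1
  have h3 : (S ∪ R0 f u) \ R0 f u = (T ∪ R0 f u) \ R0 f u := by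
    have : S ∪ R0 f u = T ∪ R0 f u := hST
    rw [this]
  rwa [union_sdiff_cancel_right h1, union_sdiff_cancel_right h2] at h3

lemma mem_SAF {f : Bool} {X : ℕ} {S : Finset ℕ} :
    S ∈ SAF f X ↔ (∀ p ∈ S, PrF f p) ∧ ∏ p ∈ S, p ≤ X := by
  unfold SAF
  rw [mem_filter, mem_powerset]
  constructor
  · exact fun h => h.2
  · intro h
    refine ⟨fun p hp => mem_range.2 (Nat.lt_succ_of_le (le_trans ?_ h.2)), h⟩
    exact Nat.le_of_dvd (Nat.pos_of_ne_zero (prod_ne_zero_iff.2 fun q hq => (h.1 q hq).1.ne_zero))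
      (dvd_prod_of_mem _ hp)

/-- all exceptional sets -/
noncomputable def EE {n : ℕ} (u a : ℕ) (cl : Fin n → ℕ) (cs V' M X z H k Y : ℕ) :
    Finset (Finset ℕ) :=
  (((Dm k Y ∪ Di z H Y) ∪ Dc z H k X) ∪ sh false u a X (Dm k Y)) ∪
    univ.biUnion fun f : Bool => ((Df f 84 5 3 V' z Y ∪ Df f (7 * u) cs M V' z Y) ∪
      sh f u a X (Db f k z Y)) ∪ univ.biUnion fun r : Fin n => Df f (7 * u) (cl r) M V' z Y

section
variable {t n : ℕ} {s : Fin t → Sy} {u a : ℕ} {cl : Fin n → ℕ} {fr : Fin n → Bool}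
  {x : Fin t → Fin n → ZMod 2} {cs : ℕ}

theorem out_sub (hy : Hy s u a cl fr x cs) (F : Finset Bool) {V₁ V V' M B X z H k : ℕ}
    (hV : V₁ ≤ V) (hz : u ≤ z) :
    (RR F u a V B X \ ((RK u a X z H k (KK F cl cs V₁ V' M V B)).filter fun S =>
      NdJ s (sm z S) (la z S))) ⊆ EE u a cl cs V' M X z H k (X * u) := by
  intro S hS
  rw [Finset.mem_sdiff, RR, Finset.mem_filter, Finset.mem_filter] at hS
  obtain ⟨⟨h1', hVF, hBF⟩, h2⟩ := hS
  have hup := hy.cp.pos
  have hXX : X ≤ X * u := Nat.le_mul_of_pos_right _ hup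
  have h0 := mem_SA.1 (SE_sub X h1')
  have h1 : S ∈ SA (X * u) := mem_SA.2 ⟨h0.1, h0.2.trans hXX⟩
  have h1u : ∀ f, S ∪ R0 f u ∈ SAF f (X * u) := by
    intro f
    refine mem_SAF.2 ⟨fun p hp => ?_, ?_⟩
    · rcases mem_union.1 hp with h | h
      · exact SE_PrF hy.dv hy.cp.cop h1' h
      · exact (mem_filter.1 h).2
    · rw [prod_union (SE_disj hy.cp.cop h1')]
      exact Nat.mul_le_mul h0.2 (R0_prod hup)
  have h1f : S ∪ R0 false u ∈ SA (X * u) := by
    have h := mem_SAF.1 (h1u false)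
    refine mem_SA.2 ⟨fun p hp => ?_, h.2⟩
    have h' := h.1 p hp
    unfold PrF at h'
    rw [if_neg (by decide)] at h'
    exact h'
  by_contra hc
  unfold EE at hc
  simp only [mem_union, mem_biUnion, mem_univ, true_and, not_or, not_exists] at hc
  obtain ⟨⟨⟨⟨a1, a2⟩, a3⟩, a4⟩, a5⟩ := hc
  have d1 : S.card ≤ k := by
    by_contra h
    exact a1 (mem_filter.2 ⟨h1, not_le.1 h⟩)
  have d1' : ∀ f, (S ∪ R0 f u).card ≤ k := by
    intro f
    rw [card_union_of_disjoint (SE_disj hy.cp.cop h1'), card_R0 hy.dv hup,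
      ← card_R0 hy.dv hup false, ← card_union_of_disjoint (SE_disj hy.cp.cop h1')]
    by_contra h
    exact a4 (mem_filter.2 ⟨h1', mem_filter.2 ⟨h1f, not_le.1 h⟩⟩)
  have d2 : Set.InjOn (jj H) (la z S : Set ℕ) := by
    by_contra h
    exact a2 (mem_filter.2 ⟨h1, h⟩)
  have d3 : (∏ p ∈ sm z S, p) * ∏ p ∈ la z S, XX H (jj H p) ≤ X := by
    by_contra h
    exact a3 (mem_filter.2 ⟨SE_sub X h1', d1, not_le.1 h⟩)
  have d4 : NdJ s (sm z S) (la z S) := by
    apply ndj_of (R := fun f => R0 f u)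
    · intro l p hp
      have hp' := hy.W l _ hp
      exact mem_filter.2 ⟨Nat.mem_primeFactors.2 ⟨hp'.1, hy.Wu l p hp, hup.ne'⟩, hp'⟩
    · intro f
      by_contra h
      apply (a5 f).1.2
      refine mem_filter.2 ⟨h1', mem_filter.2 ⟨h1u f, d1' f, ?_⟩⟩
      rwa [sm_un hz, la_un hz]
  apply h2
  refine ⟨?_, d4⟩
  unfold RK
  rw [mem_filter]
  refine ⟨h1', d2, d1, d3, ?_, ?_, ?_⟩
  · intro f hf
    have e5 := (a5 f).1.1.1
    have e6 := (a5 f).1.1.2
    have e7 := (a5 f).2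
    have g5 : ((3 : ℕ) : ℤ) * kd f S + ((3 : ℕ) : ℤ) * ((sm z S).card : ℤ) + (V' : ℤ) ≤
        (((la z S).filter fun p => p % 84 = 5).card : ℤ) := by
      by_contra h
      exact e5 (mem_filter.2 ⟨h1, not_le.1 h⟩)
    have g5' := five_le (u := u) (H := H) hy.dv d2
    rw [kJ_eqD hy.dv f d2]
    refine ⟨?_, ?_, fun r => ?_, ?_⟩
    · have := hVF f hf
      have h' : (V₁ : ℤ) ≤ V := by exact_mod_cast hV
      linarith
    · have g6 : (((la z S).filter fun p => p % 84 = 5).card : ℤ) ≤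
          ((((la z S).image (ph u H)).filter fun e => ty false e.2 = 0 ∧ ty true e.2 = 0).card : ℤ) := by
        exact_mod_cast g5'
      have g7 : (0 : ℤ) ≤ ((sm z S).card : ℤ) := Int.natCast_nonneg _
      push_cast at g5
      linarith
    · rw [card_img d2]
      by_contra h
      exact e7 r (mem_filter.2 ⟨h1, not_le.1 h⟩)
    · rw [card_img d2]
      by_contra h
      exact e6 (mem_filter.2 ⟨h1, not_le.1 h⟩)
  · intro f hf
    rw [kJ_eqD hy.dv f d2]
    exact hVF f hf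
  · intro f hf
    rw [kJ_eqD hy.dv f d2]
    exact hBF f hf

end

/-! ### the small quantities -/

lemma amc_mem {t : ℕ} (β : Fin t → Bool) : 0 ≤ amc β ∧ amc β ≤ 1 := by
  obtain ⟨m0, m1⟩ := c2_mem
  unfold amc
  constructor
  · exact prod_nonneg fun l _ => by split_ifs <;> linarith
  · exact prod_le_one (fun l _ => by split_ifs <;> linarith) (fun l _ => by split_ifs <;> linarith)

lemma card_EE {n : ℕ} {u a : ℕ} (hc : Nat.Coprime a u) (cl : Fin n → ℕ)
    (cs V' M X z H k Y : ℕ) :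
    ((EE u a cl cs V' M X z H k Y).card : ℝ) ≤ (((((Dm k Y).card : ℝ) + ((Di z H Y).card : ℝ)) +
      ((Dc z H k X).card : ℝ)) + ((Dm k Y).card : ℝ)) +
      ∑ f : Bool, (((((Df f 84 5 3 V' z Y).card : ℝ) + ((Df f (7 * u) cs M V' z Y).card : ℝ)) +
        ((Db f k z Y).card : ℝ)) + ∑ r : Fin n, ((Df f (7 * u) (cl r) M V' z Y).card : ℝ)) := by
  have h1 : (EE u a cl cs V' M X z H k Y).card ≤ ((((Dm k Y).card + (Di z H Y).card) +
      (Dc z H k X).card) + (Dm k Y).card) +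
      ∑ f : Bool, ((((Df f 84 5 3 V' z Y).card + (Df f (7 * u) cs M V' z Y).card) +
        (Db f k z Y).card) + ∑ r : Fin n, (Df f (7 * u) (cl r) M V' z Y).card) := by
    unfold EE
    refine (card_union_le _ _).trans (Nat.add_le_add ?_ (card_biUnion_le.trans ?_))
    · refine (card_union_le _ _).trans (Nat.add_le_add ?_ (card_sh _ hc _ _))
      exact (card_union_le _ _).trans (Nat.add_le_add_right (card_union_le _ _) _)
    · refine sum_le_sum fun f _ => ?_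
      refine (card_union_le _ _).trans (Nat.add_le_add ?_ card_biUnion_le)
      refine (card_union_le _ _).trans (Nat.add_le_add (card_union_le _ _) (card_sh _ hc _ _))
  exact_mod_cast h1

/-- the bound for the cut -/
theorem sml_cut' : Sml fun Y => (Y : ℝ) * kk Y / HH Y + 1 := by
  apply sml_of (C := 2) (a := 1) (by norm_num)
  have hlog : ∀ᶠ X : ℕ in atTop, Real.exp (eL X) ≤ X := by
    filter_upwards [ev_eL 1] with X hX
    rw [← logX_eq (by linarith)]
    exact (Real.log_le_sub_one_of_pos (by exact_mod_cast X_pos (by linarith))).trans (by linarith)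
  filter_upwards [ev_eL 1, lin_le (a := 1) (b := 11) (by norm_num) (by norm_num), hlog] with X hX h11 hl
  have h0 : 0 < eL X := by linarith
  have hH := HH_ge h0
  have hHp : (0 : ℝ) < HH X := lt_of_lt_of_le (Real.exp_pos _) hH
  have hX0 : (0 : ℝ) ≤ X := Nat.cast_nonneg _
  have h2 : (X : ℝ) * kk X / HH X ≤ X * Real.exp (-1 * eL X) := by
    rw [div_le_iff₀ hHp]
    calc (X : ℝ) * kk X ≤ X * Real.exp (eL X) := by
          have := kk_le hX
          rw [one_mul] at h11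
          have : (kk X : ℝ) ≤ Real.exp (eL X) := by linarith
          gcongr
      _ ≤ X * (Real.exp (-1 * eL X) * Real.exp (3 * eL X)) := by
          rw [← Real.exp_add]
          apply mul_le_mul_of_nonneg_left _ hX0
          apply Real.exp_le_exp.2
          linarith
      _ ≤ X * Real.exp (-1 * eL X) * HH X := by
          rw [mul_assoc]
          gcongr
  have h3 : (1 : ℝ) ≤ X * Real.exp (-1 * eL X) := by
    have e : Real.exp (eL X) * Real.exp (-1 * eL X) = 1 := by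
      rw [← Real.exp_add]
      have : eL X + -1 * eL X = 0 := by ring
      rw [this, Real.exp_zero]
    calc (1 : ℝ) = Real.exp (eL X) * Real.exp (-1 * eL X) := e.symm
      _ ≤ X * Real.exp (-1 * eL X) := mul_le_mul_of_nonneg_right hl (Real.exp_pos _).le
  linarith

/-- **The law in a quadrant.** -/
theorem up_law (hKY : S_KYX) (hFJ : S_FEWX) (hBAD : S_BADX) {t n : ℕ} {s : Fin t → Sy} {u a : ℕ}
    {cl : Fin n → ℕ} {fr : Fin n → Bool} {x : Fin t → Fin n → ZMod 2} {cs : ℕ}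
    (hy : Hy s u a cl fr x cs) (F : Finset Bool) (hF : F.Nonempty) (hs : ∀ l, (s l).d.f ∈ F)
    (ε : ℝ) (hε : 0 < ε) : ∃ V₁ : ℕ, ∀ V : ℕ, V₁ ≤ V → ∀ (B : ℕ) (β : Fin t → Bool),
    ∀ᶠ X : ℕ in atTop,
    |(((RR F u a V B X).filter (PatS s β)).card : ℝ) - amc β * ((RR F u a V B X).card : ℝ)| ≤
      ε * X := by
  obtain ⟨C, hC1, hkey⟩ := hKY
  obtain ⟨V₀, hV₀⟩ : ∃ V₀ : ℕ, (4 * (t : ℝ) + 2) * (1 / 2 : ℝ) ^ V₀ ≤ ε / 4 := by
    obtain ⟨V₀, h⟩ := exists_pow_lt_of_lt_one (show 0 < ε / 4 / (4 * (t : ℝ) + 2) by positivity)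
      (show (1 / 2 : ℝ) < 1 by norm_num)
    refine ⟨V₀, ?_⟩
    rw [lt_div_iff₀ (by positivity)] at h
    linarith
  obtain ⟨V₁, V', M, K, hkey⟩ := hkey t n s u a cl fr x cs hy F hF hs V₀
  refine ⟨V₁, fun V hV B β => ?_⟩
  have hup := hy.cp.pos
  -- the exceptional sets
  have s1 : Sml fun Y => ((Dm (kk Y) Y).card : ℝ) := sml_many Pool.Agent.L0h74.KD.CNT.t_CNT
  have s3 : Sml fun Y => ((Di (zz Y) (HH Y) Y).card : ℝ) :=
    sml_coll Pool.Agent.L0h74.KD.CNT.t_CNT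
  have s4 : ∀ f : Bool, Sml fun Y => ((Df f 84 5 3 V' (zz Y) Y).card : ℝ) := fun f =>
    sml_eps (hFJ f 84 5 3 V' (by norm_num) (by norm_num))
  have s5 : ∀ f : Bool, Sml fun Y => ((Df f (7 * u) cs M V' (zz Y) Y).card : ℝ) := fun f =>
    sml_eps (hFJ f (7 * u) cs M V' hy.csc.1 hy.csc.2)
  have s6 : ∀ f : Bool, Sml fun Y => ∑ r : Fin n, ((Df f (7 * u) (cl r) M V' (zz Y) Y).card : ℝ) :=
    fun f => sml_sum univ (fun r Y => ((Df f (7 * u) (cl r) M V' (zz Y) Y).card : ℝ)) fun r _ =>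
      sml_eps (hFJ f (7 * u) (cl r) M V' (hy.clc r).1 (hy.clc r).2)
  have s7 : ∀ f : Bool, Sml fun Y => ((Db f (kk Y) (zz Y) Y).card : ℝ) := fun f =>
    sml_eps (hBAD f)
  have s8 := sml_mainJ u K hC1
  have s9 := sml_sum (univ : Finset Bool) (fun f Y =>
    (((((Df f 84 5 3 V' (zz Y) Y).card : ℝ) + ((Df f (7 * u) cs M V' (zz Y) Y).card : ℝ)) +
        ((Db f (kk Y) (zz Y) Y).card : ℝ)) +
        ∑ r : Fin n, ((Df f (7 * u) (cl r) M V' (zz Y) Y).card : ℝ)))
    fun f _ => sml_add (sml_add (sml_add (s4 f) (s5 f)) (s7 f)) (s6 f)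
  have stot := sml_shift (sml_add (sml_add (sml_add (sml_add (sml_add s1 s3) sml_cut') s1) s9) s8)
    hup
  have hev := stot (ε / 4 ) (by linarith)
  have ht : Tendsto (fun X : ℕ => X * u) atTop atTop :=
    tendsto_atTop_mono (fun X => Nat.le_mul_of_pos_right X hup) tendsto_id
  filter_upwards [hev, ht.eventually (ev_eL (2 * u + 1)), eventually_ge_atTop 1] with X hX hl' hX1
  set Y : ℕ := X * u with hY
  have hu0 : (0 : ℝ) ≤ u := Nat.cast_nonneg _
  have hl : 1 ≤ eL Y := by linarith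
  have hl0 : 0 < eL Y := by linarith
  have hXY : X ≤ Y := Nat.le_mul_of_pos_right _ hup
  have hXR : (1 : ℝ) ≤ X := by exact_mod_cast hX1
  have hXYR : (X : ℝ) ≤ Y := by exact_mod_cast hXY
  have hlogXY : Real.log X ≤ Real.log Y := Real.log_le_log (by linarith) hXYR
  have hNN : (HH Y : ℝ) * Real.log X < CX.NN Y := by
    refine lt_of_le_of_lt (mul_le_mul_of_nonneg_left hlogXY (Nat.cast_nonneg _)) ?_
    unfold CX.NN
    push_cast
    exact Nat.lt_floor_add_one _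
  have huz : u ≤ zz Y := by
    have h1 := zz_ge hl
    have h2 := Real.add_one_le_exp (eL Y ^ 3)
    have h3 : eL Y ≤ eL Y ^ 3 := le_self_pow₀ hl (by norm_num)
    have h4 : (u : ℝ) ≤ zz Y := by linarith
    exact_mod_cast h4
  have hmain := hkey (KK F cl cs V₁ V' M V B) (fun S₀ J h => h.1) β X (zz Y) (HH Y) (kk Y)
    (CX.NN Y) (kap C Y) hX1 (HH_pos hl0) huz (kap_nonneg hC1 Y) (kap_pow hC1 hl) hNN
  set RKs := RK u a X (zz Y) (HH Y) (kk Y) (KK F cl cs V₁ V' M V B) with hRK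
  set T := RKs.filter fun S => NdJ s (sm (zz Y) S) (la (zz Y) S) with hT
  set R := RR F u a V B X with hR
  have hTG : RKs.filter (fun S => NdJ s (sm (zz Y) S) (la (zz Y) S) ∧ PatS s β S) =
      T.filter (PatS s β) := by
    rw [hT, filter_filter]
  rw [hTG] at hmain
  have hTR : T ⊆ R := by
    intro S hS
    rw [hT, mem_filter, hRK, RK, mem_filter] at hS
    rw [hR, RR, mem_filter]
    obtain ⟨⟨hS1, hS2, -, -, -, hS3, hS4⟩, -⟩ := hS
    refine ⟨hS1, fun f hf => ?_, fun f hf => ?_⟩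
    · have := hS3 f hf
      rwa [kJ_eqD hy.dv f hS2] at this
    · have := hS4 f hf
      rwa [kJ_eqD hy.dv f hS2] at this
  have hRS : (RKs.card : ℝ) ≤ X := by
    exact_mod_cast (card_le_card ((filter_subset _ _).trans (SE_sub X))).trans (SA_card X)
  have hcmp := cmp (PatS s β) T R hTR (amc β) (amc_mem β).1 (amc_mem β).2
  have hout : ((R \ T).card : ℝ) ≤ ((EE u a cl cs V' M X (zz Y) (HH Y) (kk Y) Y).card : ℝ) := by
    exact_mod_cast card_le_card (out_sub hy F hV huz)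
  have hEE := card_EE hy.cp.cop cl cs V' M X (zz Y) (HH Y) (kk Y) Y
  have hcut : ((Dc (zz Y) (HH Y) (kk Y) X).card : ℝ) ≤ (Y : ℝ) * kk Y / HH Y + 1 := by
    have h1 := Pool.Agent.L0h74.KD.CNT.t_CNT.cut X (zz Y) (HH Y) (kk Y) hX1 (HH_pos hl0)
    refine h1.trans ?_
    gcongr
  have g1 : (4 * (t : ℝ) + 2) * (1 / 2 : ℝ) ^ V₀ * (RKs.card : ℝ) ≤ ε / 4 * X :=
    mul_le_mul hV₀ hRS (Nat.cast_nonneg _) (by positivity)
  have g3 : (9 * ((u : ℝ) * (CX.NN Y : ℝ)) + 9) ^ kk Y *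
      (3 ^ (K * (kk Y ^ 2 + 1)) * kap C Y) * (X * (1 + Real.log X)) ≤
      (9 * ((u : ℝ) * (CX.NN Y : ℝ)) + 9) ^ kk Y *
      (3 ^ (K * (kk Y ^ 2 + 1)) * kap C Y) * (Y * (1 + Real.log Y)) := by
    have h1 := kap_nonneg hC1 Y
    have h2 := Real.log_natCast_nonneg X
    have h3 := Real.log_natCast_nonneg Y
    gcongr
  have h0 : (0 : ℝ) ≤ ε * X := by positivity
  refine hcmp.trans ?_
  refine (add_le_add hmain (hout.trans hEE)).trans ?_
  linarith

end Pool.Agent.L0h86.XF.Den
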